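import Pool.Agent.P.MP_e5b57f_nt.GD.All

/-! Dense cyclic subgroups on Weil restrictions of elliptic curves, for almost all members of a
family in each dimension. -/

namespace Pool.Agent.Results.MP_e5b57f_nt.DensityOne

open Pool.Agent.P.MP_e5b57f_nt Filter Topology WeierstrassCurve.Affine

theorem result (g : ℕ) (hg : 0 < g) : ∃ M₀ : ℕ, ∀ M, M₀ ≤ M → ∃ (N : ℕ) (X : Set ℕ), 0 < N ∧
    (∀ j, 0 < j → Set.Finite {b | b ∈ X ∧ b + j ∈ X}) ∧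
    Tendsto (fun T : ℕ => ((X ∩ Set.Iio T).ncard : ℝ) / T) atTop (𝓝 0) ∧
    ∀ b, N ∣ b → b ∉ X → ∀ (K : Type) [Field K] [NumberField K] [DecidableEq K] (θ : K),
      ∏ l ∈ Finset.range g, (θ - l) = (b : K)⁻¹ → Algebra.adjoin ℚ {θ} = ⊤ →
      Adm g (fam g M θ (b : K)⁻¹) ∧ ∃ y₁ y₂ h₁ h₂,
        ∀ (P : (fam g M θ (b : K)⁻¹).toAffine.Point) (k m n : ℤ), (m, n) ≠ 0 →
          k • P = m • Point.some (al g M θ (b : K)⁻¹ / sz (b : K)⁻¹ ^ 2) y₁ h₁ +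
            n • Point.some (al g M θ (b : K)⁻¹ / rz (b : K)⁻¹ ^ 2) y₂ h₂ → DenseMult P := by
  obtain ⟨M₀, h⟩ := GD.main g hg
  refine ⟨M₀, fun M hM => ?_⟩
  obtain ⟨N, b₀, X, hN, hX, h⟩ := h M hM
  have h1 : ∀ j, 0 < j → Set.Finite {b | b ∈ X ∪ Set.Iio b₀ ∧ b + j ∈ X ∪ Set.Iio b₀} :=
    fun j hj => ((hX j hj).union (Set.finite_Iio b₀)).subset fun b hb => by
      rcases hb with ⟨a | a, c | c⟩
      · exact Or.inl ⟨a, c⟩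
      · exact Or.inr (lt_of_le_of_lt (Nat.le_add_right b j) c)
      · exact Or.inr a
      · exact Or.inr a
  refine ⟨N, X ∪ Set.Iio b₀, hN, h1, GD.t_GAP _ h1, fun b hb hbX K _ _ _ θ hθ hK => ?_⟩
  obtain ⟨a, y₁, y₂, h₁, h₂, u, v, -, c⟩ :=
    h b (not_lt.1 fun e => hbX (Or.inr e)) hb K θ hθ hK
  exact ⟨a, y₁, y₂, h₁, h₂, fun P k m n e hP =>
    c P k m n hP (Or.inr ⟨fun e => hbX (Or.inl e), e⟩)⟩

end Pool.Agent.Results.MP_e5b57f_nt.DensityOne
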