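import Pool.Agent.P.MP_e5b57f_nt.HJ.Main

/-! Dense multiples of a rational point on almost all quadratic twists of any hyperelliptic
Jacobian. -/

namespace Pool.Agent.Results.MP_e5b57f_nt.HyperTwists

open Pool.Agent.P.MP_e5b57f_nt.HJ

theorem result (f : Polynomial ℚ) (g : ℕ) (hs : f.Separable) (hg : 1 ≤ g)
    (hn : f.natDegree = 2 * g + 1 ∨ f.natDegree = 2 * g + 2) (L : ℕ) :
    ∀ᶠ a : ℕ in Filter.atTop,
      {b : ℕ | a ≤ b ∧ b < a + L ∧ ¬Good f g b}.ncard ≤ g ^ 2 + g :=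
  main f g hs hg hn L

end Pool.Agent.Results.MP_e5b57f_nt.HyperTwists
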