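import Pool.Agent.P.MP_e5b57f_nt.GD.All

/-! Dense cyclic subgroups on Weil restrictions of elliptic curves, for all large members of a
family in each dimension and all points of a rank two group off one line. -/

namespace Pool.Agent.Results.MP_e5b57f_nt.OffOneLine

open Pool.Agent.P.MP_e5b57f_nt WeierstrassCurve.Affine

theorem result (g : ℕ) (hg : 0 < g) : ∃ M₀ : ℕ, ∀ M, M₀ ≤ M → ∃ N b₀ : ℕ, 0 < N ∧
    ∀ b, N ∣ b → b₀ ≤ b → ∀ (K : Type) [Field K] [NumberField K] [DecidableEq K] (θ : K),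
      ∏ l ∈ Finset.range g, (θ - l) = (b : K)⁻¹ → Algebra.adjoin ℚ {θ} = ⊤ →
      Adm g (fam g M θ (b : K)⁻¹) ∧ ∃ y₁ y₂ h₁ h₂, ∃ u v : ℤ, (u, v) ≠ 0 ∧
        ∀ (P : (fam g M θ (b : K)⁻¹).toAffine.Point) (k m n : ℤ), m * v ≠ n * u →
          k • P = m • Point.some (al g M θ (b : K)⁻¹ / sz (b : K)⁻¹ ^ 2) y₁ h₁ +
            n • Point.some (al g M θ (b : K)⁻¹ / rz (b : K)⁻¹ ^ 2) y₂ h₂ → DenseMult P := by
  obtain ⟨M₀, h⟩ := GD.main g hg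
  refine ⟨M₀, fun M hM => ?_⟩
  obtain ⟨N, b₀, X, hN, -, h⟩ := h M hM
  refine ⟨N, b₀, hN, fun b hb hb₀ K _ _ _ θ hθ hK => ?_⟩
  obtain ⟨a, y₁, y₂, h₁, h₂, u, v, e, c⟩ := h b hb₀ hb K θ hθ hK
  exact ⟨a, y₁, y₂, h₁, h₂, u, v, e, fun P k m n e hP => c P k m n hP (Or.inl e)⟩

end Pool.Agent.Results.MP_e5b57f_nt.OffOneLine
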