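import Pool.Agent.P.MP_e5b57f_nt.TM.All

/-! Density of cyclic submodules of rational points on simple t-modules. -/

namespace Pool.Agent.Results.MP_e5b57f_nt.TModuleDensity

open Pool.Agent.P.MP_e5b57f_nt.TM Polynomial
open scoped LaurentSeries IntermediateField Topology WithZero

theorem result (F K : Type) [Field F] [Fintype F] [Field K] [Algebra F K] (ι : K →+* F⸨X⸩)
    (hι : ∀ c : F, ι (algebraMap F K c) = HahnSeries.C c) (θ : K)
    (hθ : ι θ = HahnSeries.single (-1) 1) (hK : Algebra.IsAlgebraic F⟮θ⟯ K) (d s : ℕ)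
    (E : Fin (s + 1) → Matrix (Fin d) (Fin d) K) (hE : (E (Fin.last s)).det ≠ 0)
    (hS : Simple (Fintype.card F) (phi (Fintype.card F) θ E)) (P : Fin d → K)
    (hP : ∀ a : F[X], a ≠ 0 → phiA (phi (Fintype.card F) θ E) a P ≠ 0)
    (hB : ∃ C : ℤᵐ⁰, ∀ n i, Valued.v (ι ((phi (Fintype.card F) θ E)^[n] P i)) ≤ C) :
    closure (Set.range fun (a : F[X]) (i : Fin d) => ι (phiA (phi (Fintype.card F) θ E) a P i)) ∈
      𝓝 (0 : Fin d → F⸨X⸩) :=
  a_MAIN F K (AlgHom.mk (A := K) (B := KI F) ι hι) θ d s E P hθ hK hE hS hP hB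

end Pool.Agent.Results.MP_e5b57f_nt.TModuleDensity
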